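import Pool.Agent.TH192.PA.Poinc
import Pool.Agent.TH216.MF.H4

set_option autoImplicit false

/-! # Denef's question for forms over determinantal ideals, every prime

Let `x` be the generic matrix of one of the three spaces `S` of matrices: all `m × n` matrices, the
symmetric `n × n` matrices, the skew symmetric `n × n` matrices (`MSpace`). For `t < T` let
`F_t = ∑_j y_{t,j} M_j(x)`, where the `M_j` are the `p t`-minors of `x` (the Pfaffians of size
`2 (p t)` in the skew symmetric case), `p t < min (m, n)`, `p t < n`, or `2 (p t) + 1 < n`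
(`Small`), and the `y_{t,j}` are further variables, separate for each `t`. Let
`f = ∏ t, F_t ^ a t ∈ ℤ[x, y]` (`MSpace.formZ`). For EVERY prime `q` and every pole `T₀` of Igusa's
Poincaré series of `f` the number `t₀ = - log |T₀| / log q` is a root of the Bernstein-Sato
polynomial of `f`, and the order of the pole is bounded.

The zeta functions of these polynomials and the roots of the Bernstein-Sato polynomials are from the
starting library (`Pool/Agent/TH192`); the theorem `poincare_root` for the Poincaré series was not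
used there. Poles of the Poincaré series are compared with the poles of the zeta function, with
orders (`pole_of_poincare_ord`). -/

namespace Pool.Agent.Results.MP_5d9b3c_ag.DeterminantalForms

open Pool.Agent.TH192.DT Pool.Agent.TH192.PA
open Pool.Agent.W206.CU (poincare IsPoleOfOrder)
open Pool.Agent.H628R4.TP (IsBFunction)

/-- **Denef's question for `f = ∏ t, F_t ^ a t`**, `F_t` the forms with the minors of size `p t` of a
generic, symmetric or skew symmetric matrix as coefficients, for every prime `q`.

`poincare q f = ∑_m a_m (q ^ (-n) T) ^ m`, `a_m` the number of zeros of `f` modulo `q ^ m`.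
`IsPoleOfOrder P T₀ r`, `r > 0`: the rational function `P` has a pole of order `r` at `T₀`.
`IsBFunction f b`: `b(s) f ^ s = P(s) f ^ (s + 1)` with `P(s)` in the Weyl algebra, polynomial in `s`.
The index `i` runs over the ranks `d` and the `t < T`, with `ν_i = codim (rank ≤ d)` (`S.nu`),
`N_i = ∑ t, a t max (p t - d, 0)` (`mulN`), and `ν_i = 1`, `N_i = a t`.

(i) `t₀ = - log |T₀| / log q` is a root of `b`;
(ii) `r` is at most the number of the `i` with `- ν_i / N_i = t₀`;
(iii) if there is only one such `i`, then `r` is at most the multiplicity of the root `t₀` of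
`b`. -/
theorem result (S : MSpace) (T : ℕ) (p a : Fin T → ℕ) (hp : ∀ t, S.Small (p t))
    (q : ℕ) [Fact q.Prime] (T₀ : ℂ) (r : ℕ) (hr : 0 < r)
    (h : IsPoleOfOrder (poincare q (S.formZ p a)) T₀ r) (t₀ : ℝ)
    (ht₀ : t₀ = -Real.log ‖T₀‖ / Real.log q) :
    (∀ b : Polynomial ℂ, IsBFunction (MvPolynomial.map (Int.castRingHom ℂ) (S.formZ p a)) b →
      b.eval (t₀ : ℂ) = 0) ∧
    r ≤ Nat.card {i // 0 < mulN S.rk p a i ∧ t₀ = -((S.nu T i : ℝ) / mulN S.rk p a i)} ∧
    (Nat.card {i // 0 < mulN S.rk p a i ∧ t₀ = -((S.nu T i : ℝ) / mulN S.rk p a i)} ≤ 1 →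
      ∀ b : Polynomial ℂ, b ≠ 0 →
        IsBFunction (MvPolynomial.map (Int.castRingHom ℂ) (S.formZ p a)) b →
          r ≤ b.rootMultiplicity (t₀ : ℂ)) := by
  obtain ⟨Z, s₀, hZ, hZi, hZo, hre⟩ := Pool.Agent.TH216.MF.pole_of_poincare_ord q (S.formZ p a)
    (null_gen (formZ_ne S p a hp)) hr h
  have hre' : s₀.re = t₀ := by rw [hre, ht₀]
  refine ⟨fun b hb => ?_, ?_, fun hc b hb0 hb => ?_⟩
  · rw [ht₀]
    exact poincare_root S T p a hp T₀ r hr h b hb
  · have h1 := (igusa_poles (q := q) S T p a hp Z hZ hZi s₀).trans hZo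
    rw [hre', WithTop.coe_le_coe, neg_le_neg_iff] at h1
    exact_mod_cast h1
  · rw [S.map_formZ] at hb
    have h1 := (igusa_order (q := q) S T p a hp Z hZ hZi s₀ (by rw [hre']; exact hc) b hb0
      hb).trans hZo
    rw [hre', WithTop.coe_le_coe, neg_le_neg_iff] at h1
    exact_mod_cast h1

end Pool.Agent.Results.MP_5d9b3c_ag.DeterminantalForms
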