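import Mathlib
import Pool.Agent.TH216.EP.GenP

/-!
# Poles of Igusa's Poincaré series, generic integral coefficients, any number of variables, every
prime

Let `f = ∑_j c_j x ^ (v j) + h`, where `h ∈ ℤ[x_1, …, x_n]` is an ARBITRARY polynomial whose exponents
lie in the Newton polyhedron of the `v j ≠ 0`, and only the integral coefficients `c_j` (for instance
at the vertices of the Newton polyhedron of `f`) are generic: `g(c) ≠ 0` for a certain nonzero
polynomial `g` with rational coefficients. For every candidate pole `- |a| / N_a ≠ -1` either one of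
its facets contains a simplex which is not B1, or at every `v j` the facets of the candidate pole
through `v j` are simplices or `B1`-facets in a common direction. Then for EVERY prime `p` (no prime is
excluded) and for every pole `T₀` of Igusa's Poincaré series of `f`, the number
`t₀ = - log |T₀| / log p` is a root of the Bernstein-Sato polynomial of `f`; if the facets of the
candidate pole `t₀` are simplices or `B1`-facets in a common direction at every vertex, the order of
the pole is at most the multiplicity of the root.

The theorem is `genPE` of the starting library (`Pool/Agent/TH216/EP/GenP.lean`), where it was not used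
for a result. For the method see the starting results `AffinelyIndependentEveryPrime` and
`GenericThreeVariables`.
-/

set_option autoImplicit false

namespace Pool.Agent.Results.MP_5d9b3c_ag.GenericEveryPrime

open Pool.Agent.W206.CU Pool.Agent.TH216.MF

/-- **Denef's question on the poles of Igusa's Poincaré series for the polynomials
`f = ∑_j c_j x ^ (v j) + h` over `ℤ` with generic coefficients `c_j`, every prime `p`, with orders.**

`spa v c` is the polynomial `∑_j c_j x ^ (v j)`. `NP v w` says that `w` is in the Newton polyhedron
`conv {v j} + ℝ_{≥ 0} ^ n`.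

`HypL v h` says that for every ray `a` of the normal fan of the Newton polyhedron (`IsRay v a`)
with `N_a := gord v a = min_j ⟨a, v j⟩ > 0` one of the following holds:
* `|a| = N_a` (the candidate pole is `-1`);
* `|a| / N_a = |a'| / N_{a'}` for some `a' ∈ ℕ ^ n` with `N_{a'} > 0` and `NonB v False a'`: there is a
  set `J` of `#{i | a' i ≠ 0}` elements with `⟨a', v j⟩ = N_{a'}` for `j ∈ J` such that the vectors
  `(v j i)_{a' i ≠ 0}`, `j ∈ J`, are linearly independent and such that no variable `x_i` with
  `a' i ≠ 0` occurs in exactly one of the monomials `x ^ (v j)`, `j ∈ J`, and there with exponent `1`;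
* `LocS v h σ` for `σ = |a| / N_a`: for every `v j1` there is a variable `x_i` such that each of the rays
  `a'` with `N_{a'} > 0`, `|a'| / N_{a'} = σ` and `⟨a', v j1⟩ = N_{a'}` (the facets through `v j1`)
  satisfies one of
  - its facet is a simplex (`SimH v h a'`): the vectors `(v j i)_{a' i ≠ 0}`, for the `j` with
    `⟨a', v j⟩ = N_{a'}`, are linearly independent, and the exponents `w` of `h` with
    `⟨a', w⟩ = N_{a'}` are in the convex hull of the `v j`;
  - it is B1 in the direction `i` (`BD v h i a'`): `a' i ≠ 0`, and among the
    monomials of the face of `a'` (the `x ^ (v j)` and the monomials of `h` of minimal `a'`-weight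
    `N_{a'}`) exactly one is divisible by `x_i`; this one is some `x ^ (v j0)` with `v j0 i = 1`
    (it may also occur in `h`).

`poincare p f = ∑_m a_m (p ^ (-n) T) ^ m`, `a_m` the number of zeros of `f` modulo `p ^ m`.
`IsPoleOfOrder P T₀ m`, `m > 0`, says that the rational function `P` has a pole of order `m` at `T₀`.
`IsBFunction f b` says that `b(s) f ^ s = P(s) f ^ (s + 1)` for a differential operator `P(s)` in the
Weyl algebra, polynomial in `s`; the Bernstein-Sato polynomial `b_f` is one of these `b`. -/
theorem result {n r : ℕ} (hr : 0 < r) (v : Fin r → Fin n → ℕ) (hv : Function.Injective v)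
    (hv0 : ∀ j, v j ≠ 0) (h : MvPolynomial (Fin n) ℤ)
    (hh : ∀ w ∈ h.support, Pool.Agent.W425.SV.NP v w) (hL : HypL v h) :
    ∃ g : MvPolynomial (Fin r) ℚ, g ≠ 0 ∧
      ∀ c : Fin r → ℤ, MvPolynomial.eval (fun j => (c j : ℚ)) g ≠ 0 →
      ∀ p : ℕ, p.Prime →
        ∀ (T₀ : ℂ) (m : ℕ), 0 < m →
        IsPoleOfOrder (poincare p (Pool.Agent.W425.ND.spa v c + h)) T₀ m →
        ∀ b : Polynomial ℂ, b ≠ 0 → Pool.Agent.H628R4.TP.IsBFunction
          (MvPolynomial.map (Int.castRingHom ℂ) (Pool.Agent.W425.ND.spa v c + h)) b →
        b.eval ((-Real.log ‖T₀‖ / Real.log p : ℝ) : ℂ) = 0 ∧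
          ∃ σ : ℚ, -Real.log ‖T₀‖ / Real.log p = -(σ : ℝ) ∧
            (LocS v h σ →
              m ≤ b.rootMultiplicity ((-Real.log ‖T₀‖ / Real.log p : ℝ) : ℂ)) :=
  Pool.Agent.TH216.EP.genPE hr v hv hv0 h hh hL

end Pool.Agent.Results.MP_5d9b3c_ag.GenericEveryPrime
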