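import Pool.Agent.Q300.DP.Comp

/-!
# Denef's question with orders for stably sparse polynomials and compositions, every prime

Let `f ∈ ℤ[x_1, …, x_n]`, `f ≠ 0`, be such that `u f(x) + y_1 z_1 + ⋯ + y_κ z_κ`, `κ ≥ 1`, becomes, by an
automorphism of the polynomial ring over `ℤ`, a polynomial `∑_j a_j X ^ (v j)` with affinely
independent exponents `v j` and arbitrary coefficients `a_j ≠ 0`. Then for EVERY prime `p` and every
pole `T₀` of the Poincaré series `P_{f,p}(T)` the number `t₀ = - log |T₀| / log p` is a root of the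
Bernstein-Sato polynomial of `f`, and the order of the pole is at most the multiplicity of the root.

Examples: the compositions `f(x) = Φ(x, q_1(x), …, q_κ(x))` such that the exponents of
`u Φ(x, z) + ∑ y_i (z_i - q_i(x))` are affinely independent, for instance
`x ^ w ∏_i (b_i x ^ (α i) + c_i x ^ (β i)) ^ (e_i)` with linearly independent differences `α i - β i`. The
numbers `a_j` may be divisible by `p` (arbitrarily bad reduction), `f` may have many terms, and its
singularities need not be isolated.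

More generally the question for `f`, with orders, follows for each prime from the question for the
polynomial which is obtained from `u f(x) + ∑ y_i z_i` by an automorphism (first part).

Method. The numbers of solutions of `F ≡ 0 mod p ^ m` and of `F + y t ≡ 0 mod p ^ m` determine each
other (starting library, `Pool.Agent.W206.CU`, and helper59's `Pool.Agent.Q59.TR.Pad`): a pole of
order `r` at `T₀` gives one of the order at least `r` at `p ^ κ T₀`; a functional equation with `b(s)`
gives one with `(s + 1) b(s + κ)`; and `t₀ < 0` by the theorem on the poles of the zeta function, so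
that the factor `s + 1` does not contribute at `t₀ - κ < -1`. For polynomials with affinely
independent exponents the theorem is the starting result `AffinelyIndependentEveryPrime`.
-/

set_option autoImplicit false

namespace Pool.Agent.Results.MP_5d9b3c_ag.StablySparseEveryPrime

open MvPolynomial Pool.Agent.Y229.PA Pool.Agent.Q300.DP

/-- **Denef's question with orders, for every prime: transfer, stably sparse polynomials,
compositions.** `DenefOrd p F`: for every pole `T₀` of the Poincaré series of `F` at `p`, of order `r`,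
`r ≤ b.rootMultiplicity (-log |T₀| / log p)` for every `b ≠ 0` with `b(s) F ^ s = P(s) F ^ (s + 1)`.
`uf f = u f(x)`; `stabS g κ = g + ∑_{i ≤ κ} y_i z_i`; `spaV v a = ∑_j a_j X ^ (v j)`;
`graphU Φ q = u Φ(x, z) + ∑ y_i (z_i - q_i(x))`; `aeval (Sum.elim X q) Φ = Φ(x, q_1(x), …, q_κ(x))`. -/
theorem result :
    -- the transfer, for every prime
    (∀ (n κ : ℕ) (f : MvPolynomial (Fin n) ℤ), f ≠ 0 → 1 ≤ κ → ∀ (V : Type) [Finite V]
      (φ : MvPolynomial ((Fin n ⊕ Unit) ⊕ (Fin κ ⊕ Fin κ)) ℤ ≃ₐ[ℤ] MvPolynomial V ℤ)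
      (p : ℕ) [Fact p.Prime], DenefOrd p (φ (stabS (uf f) κ)) → DenefOrd p f) ∧
    -- stably sparse polynomials, every prime
    (∀ (n κ r : ℕ) (f : MvPolynomial (Fin n) ℤ), f ≠ 0 → 1 ≤ κ → 2 ≤ r →
      ∀ (V : Type) [Fintype V] (v : Fin r → V → ℕ),
      AffineIndependent ℚ (fun (j : Fin r) (i : V) => (v j i : ℚ)) →
      ∀ a : Fin r → ℤ, (∀ j, a j ≠ 0) →
      ∀ φ : MvPolynomial ((Fin n ⊕ Unit) ⊕ (Fin κ ⊕ Fin κ)) ℤ ≃ₐ[ℤ] MvPolynomial V ℤ,
      φ (stabS (uf f) κ) = spaV v a → ∀ p : ℕ, p.Prime → DenefOrd p f) ∧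
    -- compositions, every prime
    (∀ (n κ r : ℕ) (Φ : MvPolynomial (Fin n ⊕ Fin κ) ℤ) (q : Fin κ → MvPolynomial (Fin n) ℤ),
      aeval (Sum.elim X q) Φ ≠ 0 → 1 ≤ κ → 2 ≤ r →
      ∀ v : Fin r → (Fin n ⊕ Unit) ⊕ (Fin κ ⊕ Fin κ) → ℕ,
      AffineIndependent ℚ
        (fun (j : Fin r) (i : (Fin n ⊕ Unit) ⊕ (Fin κ ⊕ Fin κ)) => (v j i : ℚ)) →
      ∀ a : Fin r → ℤ, (∀ j, a j ≠ 0) → graphU Φ q = spaV v a →
      ∀ p : ℕ, p.Prime → DenefOrd p (aeval (Sum.elim X q) Φ)) :=
  Pool.Agent.Q300.DP.main

end Pool.Agent.Results.MP_5d9b3c_ag.StablySparseEveryPrime
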