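import Pool.Agent.Q59.TR.Pad

/-!
# Denef's question on the poles of Poincaré series: reduction to trilinear polynomials

Let `p` be any prime. Denef's question asks whether, for every non-constant polynomial
`f ∈ ℤ[x_1, …, x_n]` and every pole `T₀` of the Poincaré series `P_{f,p}(T)`, the number
`t₀ = - log |T₀| / log p` is a root of the Bernstein-Sato polynomial of `f`. We prove that for every
prime `p` separately the answer is the same for all non-constant polynomials and for the polynomials

  `F = ∑_j t_j q_j(x, y)`, `q_j` of degree at most one in `x` and of degree at most one in `y`,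
    with all coefficients in `{0, 1, -1}`.

So `F` is a polynomial of degree at most three, of degree at most one in each of three groups of
variables, and homogeneous of degree one in the last group: the question is about the ideals generated
by bilinear equations `q_j(x, y) = 0` with coefficients `0`, `1`, `-1`.

More precisely, for every `f ≠ 0` and all large `κ` an automorphism of the polynomial ring takes
`u f(x) + y_1 z_1 + ⋯ + y_κ z_κ` to such an `F`; a pole `T₀ = p ^ (-s₀)` of `P_{f,p}` gives the pole
`p ^ (-(s₀ - κ))` of `P_{F,p}`, and a functional equation of `f` with `b(s)` gives one of `F` with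
`(s + 1) b(s + κ)`.

Method. The new variables are introduced by the moves `F ↦ F + (y - a)(t + e)`, which are the move
`F ↦ F + y t` up to an automorphism of the polynomial ring over `ℤ`. They lower the degrees: the
polynomial `u f(x)` becomes a sum `∑ t_j q_j(x)` with `q_j` of degree at most two and with
coefficients `0`, `1`, `-1` (starting library, `Pool.Agent.W206.CU`, `Pool.Agent.Y229.PA`); then
for every variable `x_i` a copy `y_i` and a new `t` are introduced, by the summand `t (y_i - x_i)`,
and one of the two variables of every monomial of every `q_j` is replaced by its copy. For every prime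
`p`, the numbers of solutions of `F ≡ 0 mod p ^ m` and of `F + y t ≡ 0 mod p ^ m` determine each
other (Hensel's lemma is not used, the reduction of `f` modulo `p` may be arbitrarily bad); the
functional equation of `F` with `b(s)` gives one of `F + y t`, and no resolution of singularities
is used.
-/

set_option autoImplicit false

namespace Pool.Agent.Results.MP_5d9b3c_ag.TrilinearReduction

open MvPolynomial Pool.Agent.Y229.PA Pool.Agent.Q59.TR.Pa Pool.Agent.W206.CU
open Pool.Agent.H628R4.TP (IsBFunction)

/-- **Reduction of Denef's question to trilinear polynomials, for every prime `p`.**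

`poincare p f = ∑_m a_m (p ^ (-n) T) ^ m`, `a_m` the number of the zeros of `f` modulo `p ^ m`.
`IsPoleOfOrder P T₀ r`: `P = A / ((T - T₀) ^ r B)`, with polynomials `A`, `B` which do not vanish at
`T₀`; so for `r > 0` the rational function `P` has a pole of order `r` at `T₀`.
`IsBFunction f b`: `b(s) f ^ s = P(s) f ^ (s + 1)` with `P(s)` in the Weyl algebra, polynomial in `s`.
`IsBilinear q`: the coefficients of the `q_j(x, y)` are `0`, `1` or `-1`, the `q_j` are of degree at
most one in `x` and of degree at most one in `y`, and they are not all zero.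
`triSum q = ∑_j t_j q_j(x, y)`.
`uf f = u f(x)`; `stabS g κ = g + ∑_{i ≤ κ} y_i z_i`. -/
theorem result :
    -- every polynomial becomes trilinear
    (∀ (n : ℕ) (f : MvPolynomial (Fin n) ℤ), f ≠ 0 → ∀ N : ℕ,
      ∃ (κ m k : ℕ) (q : Fin k → MvPolynomial (Fin m ⊕ Fin m) ℤ)
        (φ : MvPolynomial ((Fin n ⊕ Unit) ⊕ (Fin κ ⊕ Fin κ)) ℤ ≃ₐ[ℤ]
          MvPolynomial ((Fin m ⊕ Fin m) ⊕ Fin k) ℤ),
        N ≤ κ ∧ IsBilinear q ∧ φ (stabS (uf f) κ) = triSum q) ∧
    -- Denef's question is equivalent to its case of the trilinear polynomials
    ∀ (p : ℕ) [Fact p.Prime],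
      (∀ (n : ℕ) (f : MvPolynomial (Fin n) ℤ), f.totalDegree ≠ 0 →
        ∀ (T₀ : ℂ) (r : ℕ), 0 < r → IsPoleOfOrder (poincare p f) T₀ r → ∀ b : Polynomial ℂ,
          IsBFunction (map (Int.castRingHom ℂ) f) b →
          b.eval ((-Real.log ‖T₀‖ / Real.log p : ℝ) : ℂ) = 0) ↔
      ∀ (m k : ℕ) (q : Fin k → MvPolynomial (Fin m ⊕ Fin m) ℤ), IsBilinear q →
        ∀ (T₀ : ℂ) (r : ℕ), 0 < r → IsPoleOfOrder (poincare p (triSum q)) T₀ r →
          ∀ b : Polynomial ℂ, IsBFunction (map (Int.castRingHom ℂ) (triSum q)) b →
          b.eval ((-Real.log ‖T₀‖ / Real.log p : ℝ) : ℂ) = 0 :=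
  ⟨fun _ f hf N => universalN f hf N, fun p _ => denef_iff p⟩

end Pool.Agent.Results.MP_5d9b3c_ag.TrilinearReduction
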